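import Pool.Agent.H59.OP.Fin
import Pool.Agent.H58.JU.Asm
import Pool.Agent.H58.JU.Final

/-!
MP_6a7a6f_gt: upper and lower bounds for the filling radius of the Cayley plane.
-/

namespace Pool.Agent.Results.MP_6a7a6f_gt.CayleyPlane

open Pool.Agent.H48.FR Pool.Agent.H59.OP

/-- Let `OP2` be the Cayley plane with its canonical metric of diameter `π / 2`. For
`ε > arccos (- 1 / 3) / 4` the Kuratowski map of `OP2` is null-homotopic in the open
`ε`-neighbourhood of its image. So the filling radius of `OP2` is at most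
`arccos (- 1 / 3) / 4`, which is smaller than a third of the diameter. For
`ε < arccos (- 1 / 9) / 4` the Kuratowski map into the open `ε`-neighbourhood has a left
homotopy inverse, and the filling radius is at least `arccos (- 1 / 9) / 4`. -/
theorem result :
    (∀ (ε : ℝ) (hε : 0 < ε), Real.arccos (-(1 / 3)) / 4 < ε → (kc OP2 ε hε).Nullhomotopic) ∧
    FillR OP2 16 ≤ Real.arccos (-(1 / 3)) / 4 ∧ Real.arccos (-(1 / 3)) / 4 < Real.pi / 6 ∧
    Metric.diam (Set.univ : Set OP2) = Real.pi / 2 ∧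
    (∀ (ε : ℝ) (hε : 0 < ε), ε < Real.arccos (-(1 / 9)) / 4 →
      ∃ r : C(UE OP2 ε, OP2), (r.comp (kc OP2 ε hε)).Homotopic (ContinuousMap.id OP2)) ∧
    Real.arccos (-(1 / 9)) / 4 ≤ FillR OP2 16 := by
  have hl := Pool.Agent.H58.JU.cayley Pool.Agent.H58.JU.A.aUMX Pool.Agent.H58.JU.A.aRET
    Pool.Agent.H58.JU.A.aFIL Pool.Agent.H58.JU.A.aOPL Pool.Agent.H58.JU.A.aOPV
  refine ⟨nullhomotopic_OP2, fillR_OP2, ?_, diam_OP2, hl.1, hl.2⟩
  have h := (rad_pos_lt (m := 1) le_rfl).2
  rwa [rad_one] at h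

end Pool.Agent.Results.MP_6a7a6f_gt.CayleyPlane
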