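import Pool.Agent.H48.FR.All
import Pool.Agent.H48.FR.St
import Pool.Agent.H58.FM.Asm

/-!
MP_6a7a6f_gt: the filling radius of all complex projective spaces is smaller than a third of the
diameter, and it tends to a third of the diameter when the dimension tends to infinity.
-/

namespace Pool.Agent.Results.MP_6a7a6f_gt.ComplexBound

open Pool.Agent.H48.FR

/-- For `n ≥ 1` and `ε > rad n` the Kuratowski map of the complex projective space `CPn n` is
null-homotopic in the open `ε`-neighbourhood of its image, so its filling radius is at most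
`rad n`, which is smaller than a third of the diameter `π / 2`. For every `ε₀ < π / 6` the order of
the image of the fundamental class in the `ε`-neighbourhoods, `ε ≤ ε₀`, is at least `n / C` with a
constant `C` which depends only on `ε₀`. So the filling radius tends to `π / 6`. -/
theorem result :
    (∀ n : ℕ, 1 ≤ n →
      (∀ (ε : ℝ) (hε : 0 < ε), rad n < ε → (kc (CPn n) ε hε).Nullhomotopic) ∧
      FillR (CPn n) (2 * n) ≤ rad n ∧ rad n < Real.pi / 6 ∧
      Metric.diam (Set.univ : Set (CPn n)) = Real.pi / 2) ∧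
    (∀ ε₀ : ℝ, ε₀ < Real.pi / 6 → ∃ C : ℕ, 1 ≤ C ∧ ∀ n : ℕ, 1 ≤ n →
      ∀ (ε : ℝ) (hε : 0 < ε), ε ≤ ε₀ → ∀ N : ℤ,
        N • (HZ (2 * n)).map (TopCat.ofHom (kc (CPn n) ε hε)) = 0 → (n : ℤ) ∣ C * N) ∧
    Filter.Tendsto (fun n : ℕ => FillR (CPn n) (2 * n)) Filter.atTop (nhds (Real.pi / 6)) := by
  refine ⟨fun n hn => ?_, Pool.Agent.H58.FM.A.bORD, Pool.Agent.H58.FM.A.bASY⟩
  have h2 : Module.finrank ℝ ℂ = 2 := Complex.finrank_real_complex
  have hdim : Module.finrank ℝ ℂ * n < Nat.multichoose (Module.finrank ℝ ℂ) (2 * n + 1) := by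
    rw [h2, Nat.multichoose_two]
    omega
  have h1 : FillRad (PP ℂ n) (2 * n) ≤ rad n := fillRad_le_rad hn hn (by omega) hdim
  exact ⟨fun ε hε hlt => nullhomotopic (𝕜 := ℂ) hn hn hdim hε hlt, h1,
    (rad_pos_lt hn).2, diam_PP (𝕜 := ℂ) hn⟩

end Pool.Agent.Results.MP_6a7a6f_gt.ComplexBound
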