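import Pool.Agent.H58.FN.AsmG
import Pool.Agent.H58.FN.Final
import Pool.Agent.H58.FN.Rad

/-!
MP_6a7a6f_gt: the exact value of the filling radius of the complex projective spaces of complex
dimensions 3 and 6, the order of the fundamental class of all complex projective spaces in the
neighbourhoods of the Kuratowski image, and lower and upper bounds for the filling radius.
-/

namespace Pool.Agent.Results.MP_6a7a6f_gt.OrderOfClass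

open Pool.Agent.H48.FR

/-- The filling radius of `CPn 3` and `CPn 6`; multiples of the map that the Kuratowski map of the
complex projective space `CPn n` into the open `ε`-neighbourhood of its image induces on the
homology in degree `2 n`; bounds for the filling radius. -/
theorem result :
    (rad 1 = Real.arccos (-(1 / 3)) / 4 ∧ rad 2 = Real.arccos (-(Real.sqrt 5)⁻¹) / 4 ∧
      rad 1 < rad 2 ∧ rad 2 < rad 3) ∧
    FillR (CPn 3) 6 = rad 3 ∧ FillR (CPn 6) 12 = rad 3 ∧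
    ∀ n : ℕ, 1 ≤ n →
    (∀ (ε : ℝ) (hε : 0 < ε), ε < rad 3 → ∀ N : ℤ,
      N • (HZ (2 * n)).map (TopCat.ofHom (kc (CPn n) ε hε)) = 0 →
      ∀ m : ℕ, Odd m → m ∣ n → (m : ℤ) ∣ N) ∧
    (∀ (ε : ℝ) (hε : 0 < ε), ε < rad 2 → ∀ N : ℤ,
      N • (HZ (2 * n)).map (TopCat.ofHom (kc (CPn n) ε hε)) = 0 → (n : ℤ) ∣ 2 * N) ∧
    (∀ j : ℕ, 1 ≤ j → j ≤ n → ∀ (ε : ℝ) (hε : 0 < ε), rad j < ε →
      ((n.choose j : ℕ) : ℤ) • (HZ (2 * n)).map (TopCat.ofHom (kc (CPn n) ε hε)) = 0) ∧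
    (Odd n → ∀ (ε : ℝ) (hε : 0 < ε), rad 1 < ε → ε < rad 3 → ∀ N : ℤ,
      (N • (HZ (2 * n)).map (TopCat.ofHom (kc (CPn n) ε hε)) = 0 ↔ (n : ℤ) ∣ N)) ∧
    (3 ≤ n → rad 2 ≤ FillR (CPn n) (2 * n)) ∧
    ((¬ ∃ a : ℕ, n = 2 ^ a) → rad 3 ≤ FillR (CPn n) (2 * n)) ∧
    ∀ k : ℕ, 1 ≤ k → (∀ p : ℕ, p.Prime → p ∣ n → p ^ n.factorization p ≤ k) →
      FillR (CPn n) (2 * n) ≤ rad k := by
  refine ⟨⟨rad_one, ?_, Pool.Agent.H58.FL.rad_one_lt_two Pool.Agent.H58.FL.A.aRD2, ?_⟩,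
    Pool.Agent.H58.FN.A.gE3.2.2.1, Pool.Agent.H58.FN.A.gE3.2.2.2,
    fun n hn => ⟨fun ε hε hl N h m ho hm => ?_, fun ε hε hl N h => ?_,
      fun j hj hjn ε hε hl => ?_, fun ho ε hε h1 h2 N => ?_,
      fun h3 => ?_, fun h => ?_, fun k hk h => ?_⟩⟩
  · rw [Pool.Agent.H58.FL.A.aRD2.1, Pool.Agent.H58.FL.A.aRD2.2.1]
  · exact Pool.Agent.H58.FN.rad_two_lt_three Pool.Agent.H58.FL.A.aRD2 Pool.Agent.H58.FN.A.cRD3
  · exact Pool.Agent.H58.FN.A.gE3.1 n ε hε hn hl N h m ho hm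
  · exact Pool.Agent.H58.FL.dvd_two_mul_D Pool.Agent.H58.FL.A.aFIN Pool.Agent.H58.FL.A.aGE2
      Pool.Agent.H58.FL.A.aDIV Pool.Agent.H58.FL.A.aRD2 n hn ε hε hl N h
  · exact Pool.Agent.H58.FL.killsN_choose Pool.Agent.H58.FL.A.aBIN n j hj hjn ε hε hl
  · exact Pool.Agent.H58.FN.killsN_iff_3 Pool.Agent.H58.FN.A.gE3 Pool.Agent.H58.FL.A.aBIN n hn ho
      ε hε h1 h2 N
  · exact Pool.Agent.H58.FL.le_fillR_D Pool.Agent.H58.FL.A.aFIN Pool.Agent.H58.FL.A.aGE2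
      Pool.Agent.H58.FL.A.aDIV Pool.Agent.H58.FL.A.aRD2 n h3
  · exact Pool.Agent.H58.FN.A.gE3.2.1 n hn h
  · exact Pool.Agent.H58.FL.fillR_le Pool.Agent.H58.FL.A.aFN2 n k hn hk h

end Pool.Agent.Results.MP_6a7a6f_gt.OrderOfClass
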