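import Pool.Agent.H48.FR.All
import Pool.Agent.H48.FR.St
import Pool.Agent.H58.JU.Asm
import Pool.Agent.H58.JU.Final
import Pool.Agent.H30.HQ.All

/-!
MP_6a7a6f_gt: upper and lower bounds for the filling radius of all quaternionic projective spaces.
-/

namespace Pool.Agent.Results.MP_6a7a6f_gt.QuaternionBound

open Pool.Agent.H48.FR
open scoped Quaternion

/-- Let `n ≥ 1` and `c = cos (π / (4 n - 1))`. For `ε > arccos (- c / (2 + c)) / 4` the Kuratowski
map of the quaternionic projective space `HPn n` induces zero on the homology of degree `4 n` of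
the open `ε`-neighbourhood of its image, so its filling radius is at most
`arccos (- c / (2 + c)) / 4 < arccos (- 1 / 3) / 4 < π / 6`, a third of the diameter. On the other
side, for `ε < arccos (- 1 / 5) / 4` the Kuratowski map into the open `ε`-neighbourhood has a left
homotopy inverse, and the filling radius is at least `arccos (- 1 / 5) / 4`. For `n = 1` the two
bounds agree. -/
theorem result : ∀ (n : ℕ) (c : ℝ), 1 ≤ n → c = Real.cos (Real.pi / (4 * n - 1)) →
    Metric.diam (Set.univ : Set (HPn n)) = Real.pi / 2 ∧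
    (∀ (ε : ℝ) (hε : 0 < ε), Real.arccos (-(c / (2 + c))) / 4 < ε →
      Kills (4 * n) (kc (HPn n) ε hε)) ∧
    FillR (HPn n) (4 * n) ≤ Real.arccos (-(c / (2 + c))) / 4 ∧
    Real.arccos (-(c / (2 + c))) / 4 < Real.arccos (-(1 / 3)) / 4 ∧
    Real.arccos (-(1 / 3)) / 4 < Real.pi / 6 ∧
    (∀ (ε : ℝ) (hε : 0 < ε), ε < Real.arccos (-(1 / 5)) / 4 →
      ∃ r : C(UE (HPn n) ε, HPn n),
        (r.comp (kc (HPn n) ε hε)).Homotopic (ContinuousMap.id (HPn n))) ∧
    Real.arccos (-(1 / 5)) / 4 ≤ FillR (HPn n) (4 * n) ∧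
    (n = 1 → Real.arccos (-(c / (2 + c))) / 4 = Real.arccos (-(1 / 5)) / 4) := by
  intro n c hn hc
  obtain ⟨h1, h2⟩ := Pool.Agent.H58.JU.quaternion Pool.Agent.H58.JU.A.aUMX
    Pool.Agent.H58.JU.A.aRET Pool.Agent.H58.JU.A.aFIL Pool.Agent.H58.JU.A.aHPL
    Pool.Agent.H58.JU.A.aHPV n hn
  obtain ⟨-, h4⟩ := Pool.Agent.H30.HQ.All.aPAB.1 n hn
  have h5 := Pool.Agent.H30.HQ.All.fillR_le n hn
  have h6 := Pool.Agent.H30.HQ.All.aHQF n
  have h7 := Pool.Agent.H30.HQ.All.aPAB.2.1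
  unfold Pool.Agent.H30.HQ.radH at h4 h5 h6 h7
  rw [← hc] at h4 h5 h6
  have h8 : Real.arccos (-(1 / 3)) / 4 < Real.pi / 6 := by
    rw [← rad_one]
    exact (rad_pos_lt le_rfl).2
  refine ⟨diam_PP (𝕜 := ℍ[ℝ]) hn, fun ε hε hlt => h6 ε hε hn hlt, h5, h4, h8, h1, h2, ?_⟩
  intro hn1
  subst hn1
  rw [← hc] at h7
  exact h7

end Pool.Agent.Results.MP_6a7a6f_gt.QuaternionBound
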